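import Mathlib

/-!
The Laplacian of a forest of similitudes is nondegenerate on the image.

Vertices `i : Fin n` with spaces `U i` and nondegenerate forms `g i`; edges `e` with ends
`a e < b e`, spaces `W e` and forms `β e`; `ra e : U (a e) → W e`, `rb e : U (b e) → W e` are
similitudes with rational factors `ma e`, `mb e ≥ 0`, zero if the factor is zero. An edge is full if
both factors are nonzero; then the image of `ra e` lies in the image of `rb e`, and the larger end
`b e` of a full edge determines it (so the full edges form a forest, and `a e` is the parent of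
`b e`).
-/

namespace Pool.Agent.LibX1F

open Finset in
/-- the equation of the conductances -/
private noncomputable def FO_F {n : ℕ} {Ed : Type*} [Fintype Ed] (a b : Ed → Fin n)
    (ma mb : Ed → ℚ) (C : Fin n → ℚ) (i : Fin n) : ℚ :=
  open Classical in
  ∑ e, ((if a e = i then (if ma e ≠ 0 ∧ mb e ≠ 0 then ma e * (C (b e) / (C (b e) + mb e))
    else ma e) else 0) + (if b e = i ∧ ¬ (ma e ≠ 0 ∧ mb e ≠ 0) then mb e else 0))

private lemma FO_F_congr {n : ℕ} {Ed : Type*} [Fintype Ed] (a b : Ed → Fin n)
    (ma mb : Ed → ℚ) (C C' : Fin n → ℚ) (i : Fin n) (h : ∀ e, a e = i → C (b e) = C' (b e)) :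
    FO_F a b ma mb C i = FO_F a b ma mb C' i := by
  unfold FO_F
  apply Finset.sum_congr rfl
  intro e _
  by_cases he : a e = i
  · rw [h e he]
  · rw [if_neg he, if_neg he]

private lemma FO_exists {n : ℕ} {Ed : Type*} [Fintype Ed] (a b : Ed → Fin n)
    (hab : ∀ e, a e < b e) (ma mb : Ed → ℚ) (k : ℕ) :
    ∃ C : Fin n → ℚ, ∀ i : Fin n, n ≤ (i : ℕ) + k → C i = FO_F a b ma mb C i := by
  classical
  induction k with
  | zero =>
    refine ⟨fun _ => 0, fun i hi => ?_⟩
    have := i.2
    omega
  | succ k ih =>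
    obtain ⟨C, hC⟩ := ih
    refine ⟨fun i => if n ≤ (i : ℕ) + k then C i else FO_F a b ma mb C i, fun i hi => ?_⟩
    have hlt : ∀ e, a e = i → n ≤ ((b e : Fin n) : ℕ) + k := by
      intro e he
      have h1 := hab e
      rw [he] at h1
      have h2 : (i : ℕ) < b e := h1
      omega
    have hcong : FO_F a b ma mb (fun i => if n ≤ (i : ℕ) + k then C i
        else FO_F a b ma mb C i) i = FO_F a b ma mb C i := by
      apply FO_F_congr
      intro e he
      rw [if_pos (hlt e he)]
    rw [hcong]
    change (if n ≤ (i : ℕ) + k then C i else FO_F a b ma mb C i) = FO_F a b ma mb C i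
    by_cases h : n ≤ (i : ℕ) + k
    · rw [if_pos h]
      exact hC i h
    · rw [if_neg h]

private lemma FO_nonneg {n : ℕ} {Ed : Type*} [Fintype Ed] (a b : Ed → Fin n)
    (hab : ∀ e, a e < b e) (ma mb : Ed → ℚ) (hma : ∀ e, 0 ≤ ma e) (hmb : ∀ e, 0 ≤ mb e)
    (C : Fin n → ℚ) (hC : ∀ i, C i = FO_F a b ma mb C i) :
    ∀ (k : ℕ) (i : Fin n), n ≤ (i : ℕ) + k → 0 ≤ C i := by
  intro k
  induction k with
  | zero =>
    intro i hi
    have := i.2
    omega
  | succ k ih =>
    intro i hi
    rw [hC i]
    unfold FO_F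
    apply Finset.sum_nonneg
    intro e _
    have h1 := hma e
    have h2 := hmb e
    apply add_nonneg
    · split_ifs with h3 h4
      · have h5 := hab e
        rw [h3] at h5
        have h6 : (i : ℕ) < b e := h5
        have h7 := ih (b e) (by omega)
        positivity
      · exact h1
      · exact le_rfl
    · split_ifs
      · exact h2
      · exact le_rfl

theorem forest {K : Type*} [Field K] [CharZero K] {n : ℕ} {Ed : Type*} [Fintype Ed]
    (a b : Ed → Fin n) (hab : ∀ e, a e < b e)
    (U : Fin n → Type*) [∀ i, AddCommGroup (U i)] [∀ i, Module K (U i)]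
    (W : Ed → Type*) [∀ e, AddCommGroup (W e)] [∀ e, Module K (W e)]
    (g : ∀ i, U i →ₗ[K] U i →ₗ[K] K) (hg : ∀ i y, (∀ u, g i u y = 0) → y = 0)
    (β : ∀ e, W e →ₗ[K] W e →ₗ[K] K)
    (ra : ∀ e, U (a e) →ₗ[K] W e) (rb : ∀ e, U (b e) →ₗ[K] W e)
    (ma mb : Ed → ℚ) (hma : ∀ e, 0 ≤ ma e) (hmb : ∀ e, 0 ≤ mb e)
    (ha : ∀ e u v, β e (ra e u) (ra e v) = (ma e : K) * g (a e) u v)
    (hb : ∀ e u v, β e (rb e u) (rb e v) = (mb e : K) * g (b e) u v)
    (ha0 : ∀ e, ma e = 0 → ra e = 0) (hb0 : ∀ e, mb e = 0 → rb e = 0)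
    (hsub : ∀ e, ma e ≠ 0 → mb e ≠ 0 → ∀ u, ∃ v, rb e v = ra e u)
    (hforest : ∀ e e', ma e ≠ 0 → mb e ≠ 0 → ma e' ≠ 0 → mb e' ≠ 0 → b e = b e' → e = e')
    (y : ∀ i, U i)
    (hy : ∀ z : ∀ i, U i, ∑ e, β e (ra e (z (a e)) - rb e (z (b e)))
      (ra e (y (a e)) - rb e (y (b e))) = 0) (e : Ed) :
    ra e (y (a e)) = rb e (y (b e)) := by
  classical
  obtain ⟨C, hC'⟩ := FO_exists a b hab ma mb n
  have hC : ∀ i, C i = FO_F a b ma mb C i := fun i => hC' i (by omega)
  have hC0 : ∀ i, 0 ≤ C i := fun i =>
    FO_nonneg a b hab ma mb hma hmb C hC n i (by omega)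
  set w : ∀ e, W e := fun e => ra e (y (a e)) - rb e (y (b e)) with hw
  -- each summand of `C`
  have hterm0 : ∀ i e, 0 ≤ (if a e = i then (if ma e ≠ 0 ∧ mb e ≠ 0 then
      ma e * (C (b e) / (C (b e) + mb e)) else ma e) else 0) +
      (if b e = i ∧ ¬ (ma e ≠ 0 ∧ mb e ≠ 0) then mb e else 0) := by
    intro i e
    have h1 := hma e
    have h2 := hmb e
    have h3 := hC0 (b e)
    apply add_nonneg
    · split_ifs
      · positivity
      · exact h1
      · exact le_rfl
    · split_ifs
      · exact h2
      · exact le_rfl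
  have hterm : ∀ i e, (if a e = i then (if ma e ≠ 0 ∧ mb e ≠ 0 then
      ma e * (C (b e) / (C (b e) + mb e)) else ma e) else 0) +
      (if b e = i ∧ ¬ (ma e ≠ 0 ∧ mb e ≠ 0) then mb e else 0) ≤ C i := by
    intro i e
    rw [hC i]
    unfold FO_F
    exact Finset.single_le_sum (f := fun e => (if a e = i then (if ma e ≠ 0 ∧ mb e ≠ 0 then
      ma e * (C (b e) / (C (b e) + mb e)) else ma e) else 0) +
      (if b e = i ∧ ¬ (ma e ≠ 0 ∧ mb e ≠ 0) then mb e else 0))
      (fun e _ => hterm0 i e) (Finset.mem_univ e)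
  -- injectivity
  have hbinj : ∀ e, mb e ≠ 0 → ∀ v, rb e v = 0 → v = 0 := by
    intro e he v hv
    apply hg
    intro u
    have h1 := hb e u v
    rw [hv, map_zero] at h1
    have h2 : (mb e : K) ≠ 0 := by exact_mod_cast he
    exact (mul_eq_zero.1 h1.symm).resolve_left h2
  -- the vertex equations
  have hvert : ∀ i (u : U i), ∑ e, (β e (ra e ((Pi.single i u : ∀ j, U j) (a e))) (w e) -
      β e (rb e ((Pi.single i u : ∀ j, U j) (b e))) (w e)) = 0 := by
    intro i u
    rw [← hy (Pi.single i u)]
    apply Finset.sum_congr rfl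
    intro e _
    have h1 : ra e (y (a e)) - rb e (y (b e)) = w e := rfl
    rw [h1, (β e).map_sub, LinearMap.sub_apply]
  -- claim (4)
  let P : Fin n → Prop := fun i => ∀ u : U i, (C i : K) * g i u (y i) =
    ∑ e, (if b e = i ∧ (ma e ≠ 0 ∧ mb e ≠ 0) then
      β e (rb e ((Pi.single i u : ∀ j, U j) (b e))) (w e) else 0)
  have hE1 : ∀ e, (ma e ≠ 0 ∧ mb e ≠ 0) → P (b e) → ∀ v : U (b e),
      (C (b e) : K) * g (b e) v (y (b e)) = β e (rb e v) (w e) := by
    intro e he hPe v
    rw [hPe v, Finset.sum_eq_single e]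
    · rw [if_pos ⟨rfl, he⟩, Pi.single_eq_same]
    · intro e' _ hne
      rw [if_neg]
      rintro ⟨h1, h2⟩
      exact hne (hforest e' e h2.1 h2.2 he.1 he.2 h1)
    · intro h
      exact absurd (Finset.mem_univ e) h
  have hpos : ∀ e, mb e ≠ 0 → (0 : ℚ) < C (b e) + mb e := by
    intro e he
    have h1 := lt_of_le_of_ne (hmb e) (Ne.symm he)
    have h2 := hC0 (b e)
    linarith
  have hE3 : ∀ e, (ma e ≠ 0 ∧ mb e ≠ 0) → P (b e) → ∃ y' : U (b e),
      rb e y' = ra e (y (a e)) ∧
        ((C (b e) + mb e : ℚ) : K) • y (b e) = (mb e : K) • y' := by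
    intro e he hPe
    obtain ⟨y', hy'⟩ := hsub e he.1 he.2 (y (a e))
    refine ⟨y', hy', ?_⟩
    have h1 : ∀ v, g (b e) v (((C (b e) + mb e : ℚ) : K) • y (b e) - (mb e : K) • y') = 0 := by
      intro v
      have h2 := hE1 e he hPe v
      have h3 : w e = rb e (y' - y (b e)) := by
        rw [hw, map_sub, hy']
      rw [h3, hb e v (y' - y (b e)), map_sub] at h2
      rw [map_sub, map_smul, map_smul, smul_eq_mul, smul_eq_mul]
      push_cast
      linear_combination h2
    exact sub_eq_zero.1 (hg _ _ h1)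
  have hE2 : ∀ e, (ma e ≠ 0 ∧ mb e ≠ 0) → P (b e) →
      w e = ((C (b e) / (C (b e) + mb e) : ℚ) : K) • ra e (y (a e)) := by
    intro e he hPe
    obtain ⟨y', hy', h1⟩ := hE3 e he hPe
    have h2 := hpos e he.2
    have h3 : ((C (b e) + mb e : ℚ) : K) ≠ 0 := by exact_mod_cast h2.ne'
    have h4 : ((C (b e) + mb e : ℚ) : K) • w e = (C (b e) : K) • ra e (y (a e)) := by
      have h5 : w e = ra e (y (a e)) - rb e (y (b e)) := rfl
      rw [h5, smul_sub, ← map_smul (rb e), h1, map_smul, hy']
      rw [← sub_smul]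
      congr 1
      push_cast
      ring
    have h6 : w e = (((C (b e) + mb e : ℚ) : K))⁻¹ • (((C (b e) + mb e : ℚ) : K) • w e) := by
      rw [smul_smul, inv_mul_cancel₀ h3, one_smul]
    rw [h6, h4, smul_smul]
    congr 1
    push_cast
    rw [div_eq_inv_mul]
  have hP : ∀ (k : ℕ) (i : Fin n), n ≤ (i : ℕ) + k → P i := by
    intro k
    induction k with
    | zero =>
      intro i hi
      have := i.2
      omega
    | succ k ih =>
      intro i hi u
      have hbP : ∀ e, a e = i → P (b e) := by
        intro e he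
        have h1 := hab e
        rw [he] at h1
        have h2 : (i : ℕ) < b e := h1
        exact ih (b e) (by omega)
      have hT : ∀ e, β e (ra e ((Pi.single i u : ∀ j, U j) (a e))) (w e) -
          β e (rb e ((Pi.single i u : ∀ j, U j) (b e))) (w e) =
          (((if a e = i then (if ma e ≠ 0 ∧ mb e ≠ 0 then
            ma e * (C (b e) / (C (b e) + mb e)) else ma e) else 0) +
          (if b e = i ∧ ¬ (ma e ≠ 0 ∧ mb e ≠ 0) then mb e else 0) : ℚ) : K) * g i u (y i) -
          (if b e = i ∧ (ma e ≠ 0 ∧ mb e ≠ 0) then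
            β e (rb e ((Pi.single i u : ∀ j, U j) (b e))) (w e) else 0) := by
        intro e
        by_cases hai : a e = i
        · have hbi : b e ≠ i := by
            intro h
            have := hab e
            rw [hai, h] at this
            exact lt_irrefl _ this
          have n1 : ¬ (b e = i ∧ ¬ (ma e ≠ 0 ∧ mb e ≠ 0)) := fun h => hbi h.1
          have n2 : ¬ (b e = i ∧ (ma e ≠ 0 ∧ mb e ≠ 0)) := fun h => hbi h.1
          rw [if_pos hai, if_neg n1, if_neg n2,
            Pi.single_eq_of_ne hbi, map_zero, map_zero, LinearMap.zero_apply, sub_zero, sub_zero,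
            add_zero]
          have hPb := hbP e hai
          subst hai
          rw [Pi.single_eq_same]
          by_cases hf : ma e ≠ 0 ∧ mb e ≠ 0
          · rw [if_pos hf, hE2 e hf hPb, map_smul, smul_eq_mul, ha]
            push_cast
            ring
          · rw [if_neg hf]
            by_cases hm : ma e = 0
            · rw [ha0 e hm, hm]
              simp
            · have hm2 : mb e = 0 := by
                by_contra h
                exact hf ⟨hm, h⟩
              have h5 : w e = ra e (y (a e)) := by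
                rw [hw]
                simp only
                rw [hb0 e hm2, LinearMap.zero_apply, sub_zero]
              rw [h5, ha]
        · rw [if_neg hai, Pi.single_eq_of_ne hai, map_zero, map_zero, LinearMap.zero_apply,
            zero_sub, zero_add]
          by_cases hbi : b e = i
          · by_cases hf : ma e ≠ 0 ∧ mb e ≠ 0
            · have n1 : ¬ (b e = i ∧ ¬ (ma e ≠ 0 ∧ mb e ≠ 0)) := fun h => h.2 hf
              have n2 : b e = i ∧ (ma e ≠ 0 ∧ mb e ≠ 0) := ⟨hbi, hf⟩
              rw [if_neg n1, if_pos n2]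
              simp
            · have n1 : b e = i ∧ ¬ (ma e ≠ 0 ∧ mb e ≠ 0) := ⟨hbi, hf⟩
              have n2 : ¬ (b e = i ∧ (ma e ≠ 0 ∧ mb e ≠ 0)) := fun h => hf h.2
              rw [if_pos n1, if_neg n2, sub_zero]
              subst hbi
              rw [Pi.single_eq_same]
              by_cases hm : mb e = 0
              · rw [hb0 e hm, hm]
                simp
              · have hm2 : ma e = 0 := by
                  by_contra h
                  exact hf ⟨h, hm⟩
                have h5 : w e = - rb e (y (b e)) := by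
                  rw [hw]
                  simp only
                  rw [ha0 e hm2, LinearMap.zero_apply, zero_sub]
                rw [h5, map_neg, neg_neg, hb]
          · have n1 : ¬ (b e = i ∧ ¬ (ma e ≠ 0 ∧ mb e ≠ 0)) := fun h => hbi h.1
            have n2 : ¬ (b e = i ∧ (ma e ≠ 0 ∧ mb e ≠ 0)) := fun h => hbi h.1
            rw [Pi.single_eq_of_ne hbi, map_zero, map_zero, LinearMap.zero_apply,
              if_neg n1, if_neg n2]
            simp
      have h1 := hvert i u
      rw [Finset.sum_congr rfl (fun e _ => hT e), Finset.sum_sub_distrib, ← Finset.sum_mul] at h1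
      have h2 : (C i : K) = ∑ e, (((if a e = i then (if ma e ≠ 0 ∧ mb e ≠ 0 then
            ma e * (C (b e) / (C (b e) + mb e)) else ma e) else 0) +
          (if b e = i ∧ ¬ (ma e ≠ 0 ∧ mb e ≠ 0) then mb e else 0) : ℚ) : K) := by
        rw [hC i]
        unfold FO_F
        rw [Rat.cast_sum]
      rw [← h2] at h1
      exact sub_eq_zero.1 h1
  have hP' : ∀ i, P i := fun i => hP n i (by omega)
  -- claim (5)
  have hstep : ∀ e, (ma e ≠ 0 ∧ mb e ≠ 0) → C (a e) = 0 → C (b e) = 0 := by
    intro e he h
    have h1 := hterm (a e) e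
    rw [if_pos rfl, if_pos he, if_neg (fun h2 => h2.2 he), add_zero, h] at h1
    have h2 := hpos e he.2
    have h3 := lt_of_le_of_ne (hma e) (Ne.symm he.1)
    have h4 := hC0 (b e)
    by_contra hne
    have h5 : 0 < C (b e) := lt_of_le_of_ne h4 (Ne.symm hne)
    have h6 : 0 < ma e * (C (b e) / (C (b e) + mb e)) := by positivity
    linarith
  have hQ : ∀ (k : ℕ) (i : Fin n), (i : ℕ) < k → C i = 0 ∨ y i = 0 := by
    intro k
    induction k with
    | zero =>
      intro i hi
      omega
    | succ k ih =>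
      intro i hi
      by_cases hex : ∃ e, b e = i ∧ (ma e ≠ 0 ∧ mb e ≠ 0)
      · obtain ⟨e, hbi, hf⟩ := hex
        subst hbi
        have h1 : ((a e : Fin n) : ℕ) < b e := hab e
        rcases ih (a e) (by omega) with h2 | h2
        · exact Or.inl (hstep e hf h2)
        · right
          obtain ⟨y', hy', h3⟩ := hE3 e hf (hP' _)
          rw [h2, map_zero] at hy'
          rw [hbinj e hf.2 y' hy', smul_zero] at h3
          have h4 : ((C (b e) + mb e : ℚ) : K) ≠ 0 := by exact_mod_cast (hpos e hf.2).ne'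
          exact (smul_eq_zero.1 h3).resolve_left h4
      · have h1 : ∀ u, g i u ((C i : K) • y i) = 0 := by
          intro u
          rw [map_smul, smul_eq_mul, hP' i u]
          apply Finset.sum_eq_zero
          intro e _
          rw [if_neg]
          intro h
          exact hex ⟨e, h⟩
        rcases smul_eq_zero.1 (hg i _ h1) with h2 | h2
        · left
          exact_mod_cast h2
        · exact Or.inr h2
  have hQ' : ∀ i, C i = 0 ∨ y i = 0 := fun i => hQ n i i.2
  -- conclusion
  by_cases hf : ma e ≠ 0 ∧ mb e ≠ 0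
  · have h1 := hE2 e hf (hP' _)
    have h2 : w e = 0 := by
      rw [h1]
      rcases hQ' (a e) with h | h
      · rw [hstep e hf h]
        simp
      · rw [h]
        simp
    exact sub_eq_zero.1 h2
  · by_cases hm : ma e = 0
    · rw [ha0 e hm, LinearMap.zero_apply]
      by_cases hm2 : mb e = 0
      · rw [hb0 e hm2, LinearMap.zero_apply]
      · have h1 := hterm (b e) e
        have hne : a e ≠ b e := (hab e).ne
        rw [if_neg hne, if_pos ⟨rfl, hf⟩, zero_add] at h1
        have h2 := lt_of_le_of_ne (hmb e) (Ne.symm hm2)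
        rcases hQ' (b e) with h | h
        · linarith
        · rw [h, map_zero]
    · have hm2 : mb e = 0 := by
        by_contra h
        exact hf ⟨hm, h⟩
      rw [hb0 e hm2, LinearMap.zero_apply]
      have h1 := hterm (a e) e
      have hne : b e ≠ a e := (hab e).ne'
      rw [if_pos rfl, if_neg hf, if_neg (fun h => hne h.1), add_zero] at h1
      have h2 := lt_of_le_of_ne (hma e) (Ne.symm hm)
      rcases hQ' (a e) with h | h
      · linarith
      · rw [h, map_zero]

end Pool.Agent.LibX1F
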